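import Mathlib

/-!
# The Pixley-Roy hyperspace of a selectively highly divergent space is selectively highly divergent
-/

set_option autoImplicit false

open Set Filter Topology

namespace Pool.Agent.Results.MP_3a5480_gt.HyperspaceSHD

universe u

/-- `X` is selectively highly divergent: for every sequence of nonempty open sets one can choose
points of these sets such that no subsequence of the sequence of the points converges. -/
def SHD (X : Type u) [TopologicalSpace X] : Prop :=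
  ∀ U : ℕ → Set X, (∀ n, IsOpen (U n)) → (∀ n, (U n).Nonempty) →
    ∃ x : ℕ → X, (∀ n, x n ∈ U n) ∧
      ∀ φ : ℕ → ℕ, StrictMono φ → ∀ a : X, ¬ Tendsto (x ∘ φ) atTop (𝓝 a)

/-- The points of the Pixley-Roy hyperspace: the nonempty finite subsets of `X`. -/
def PixleyRoy (X : Type u) : Type u := {A : Set X // A.Finite ∧ A.Nonempty}

/-- The topology of the Pixley-Roy hyperspace: the sets
`[F, V] = {H | F ⊆ H ⊆ V}`, `V` open, `F ⊆ V`, form a local base at `F`. -/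
instance (X : Type u) [TopologicalSpace X] : TopologicalSpace (PixleyRoy X) where
  IsOpen 𝒰 := ∀ F ∈ 𝒰, ∃ V : Set X, IsOpen V ∧ F.1 ⊆ V ∧
    {H : PixleyRoy X | F.1 ⊆ H.1 ∧ H.1 ⊆ V} ⊆ 𝒰
  isOpen_univ := fun F _ => ⟨univ, isOpen_univ, subset_univ _, subset_univ _⟩
  isOpen_inter := by
    rintro 𝒰 𝒱 h𝒰 h𝒱 F ⟨hF1, hF2⟩
    obtain ⟨V, hV, hFV, hVU⟩ := h𝒰 F hF1
    obtain ⟨W, hW, hFW, hWV⟩ := h𝒱 F hF2
    refine ⟨V ∩ W, hV.inter hW, subset_inter hFV hFW, ?_⟩
    rintro H ⟨h1, h2⟩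
    exact ⟨hVU ⟨h1, h2.trans inter_subset_left⟩, hWV ⟨h1, h2.trans inter_subset_right⟩⟩
  isOpen_sUnion := by
    rintro S hS F ⟨𝒰, h𝒰, hF⟩
    obtain ⟨V, hV, hFV, hVU⟩ := hS 𝒰 h𝒰 F hF
    exact ⟨V, hV, hFV, hVU.trans (subset_sUnion_of_mem h𝒰)⟩

theorem isOpen_basic {X : Type u} [TopologicalSpace X] (F : Set X) {V : Set X} (hV : IsOpen V) :
    IsOpen {H : PixleyRoy X | F ⊆ H.1 ∧ H.1 ⊆ V} := by
  rintro G ⟨hG1, hG2⟩
  exact ⟨V, hV, hG2, fun H hH => ⟨hG1.trans hH.1, hH.2⟩⟩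

/-- If no subsequence of `y` converges then every finite set has a neighbourhood which misses
infinitely many terms of `y`. -/
theorem exists_nhds {X : Type u} [TopologicalSpace X] (y : ℕ → X)
    (hy : ∀ φ : ℕ → ℕ, StrictMono φ → ∀ a : X, ¬ Tendsto (y ∘ φ) atTop (𝓝 a))
    {H : Set X} (hH : H.Finite) :
    ∃ V : Set X, IsOpen V ∧ H ⊆ V ∧ ∃ᶠ n in atTop, y n ∉ V := by
  induction H, hH using Set.Finite.induction_on with
  | empty => exact ⟨∅, isOpen_empty, subset_rfl, Frequently.of_forall fun n => notMem_empty _⟩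
  | @insert h H _ _ ih =>
    obtain ⟨V, hV, hHV, hfr⟩ := ih
    obtain ⟨φ, hφ, hφV⟩ := extraction_of_frequently_atTop hfr
    have h1 := hy φ hφ h
    rw [tendsto_nhds] at h1
    push Not at h1
    obtain ⟨O, hO, hhO, h2⟩ := h1
    refine ⟨V ∪ O, hV.union hO, insert_subset (Or.inr hhO) (hHV.trans subset_union_left), ?_⟩
    have h3 : ∃ᶠ k in atTop, y (φ k) ∉ V ∪ O := by
      have h4 : ∃ᶠ k in atTop, ¬ (y ∘ φ) k ∈ O := fun h5 =>
        h2 (by filter_upwards [h5] with k hk using not_not.1 hk)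
      refine h4.mono fun k hk => ?_
      rintro (h5 | h5)
      · exact hφV k h5
      · exact hk h5
    exact hφ.tendsto_atTop.frequently h3

/-- If a `T₁` space `X` is selectively highly divergent then so is its Pixley-Roy hyperspace. -/
theorem result : ∀ (X : Type u) [TopologicalSpace X], T1Space X → SHD X → SHD (PixleyRoy X) := by
  intro X _ _ hX U hU hne
  choose F hF using hne
  choose V hV hFV hVU using fun n => hU n (F n) (hF n)
  obtain ⟨x, hxV, hx⟩ := hX V hV fun n => (F n).2.2.mono (hFV n)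
  refine ⟨fun n => ⟨insert (x n) (F n).1, (F n).2.1.insert _, insert_nonempty _ _⟩, ?_, ?_⟩
  · intro n
    exact hVU n ⟨subset_insert _ _, insert_subset (hxV n) (hFV n)⟩
  · intro φ hφ A hA
    have hxφ : ∀ ψ : ℕ → ℕ, StrictMono ψ → ∀ a : X, ¬ Tendsto ((x ∘ φ) ∘ ψ) atTop (𝓝 a) :=
      fun ψ hψ a => hx (φ ∘ ψ) (hφ.comp hψ) a
    obtain ⟨W, hW, hAW, hfr⟩ := exists_nhds (x ∘ φ) hxφ A.2.1
    have hev := hA ((isOpen_basic A.1 hW).mem_nhds ⟨subset_rfl, hAW⟩)
    obtain ⟨k, hk1, hk2⟩ := (hfr.and_eventually hev).exists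
    exact hk1 (hk2.2 (mem_insert _ _))

end Pool.Agent.Results.MP_3a5480_gt.HyperspaceSHD
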